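import Pool.Agent.H63.SEP.Stmts

/-!
Module DIK of project SEP: finitely many successive thinnings.
-/

set_option linter.unusedVariables false
set_option synthInstance.maxSize 100000

namespace SW.SEP

open SW

/-- DIK -/
theorem sep_dik : DIKStmt := by
  intro M _ _ P hP hmono K hK h
  have _ : ∀ (n : ℕ) (t s : (Fin n → M) → M) [DfT t] [DfT s], Df (fun v => P (t v) (s v)) :=
    fun n t s ht hs => hP.comp2 ht hs
  have key : ∀ K', E K' om → (Sub K' K → ∀ A, Sub A om → ¬ Fnt A →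
      ∃ A', Sub A' A ∧ ¬ Fnt A' ∧ ∀ k, E k K' → P k A') := by
    intro K' hK'
    refine om_ind (C := fun K' => Sub K' K → ∀ A, Sub A om → ¬ Fnt A →
      ∃ A', Sub A' A ∧ ¬ Fnt A' ∧ ∀ k, E k K' → P k A') inferInstance ?_ ?_ K' hK'
    · intro _ A _ hA
      exact ⟨A, Sub.refl A, hA, fun k hk => absurd hk (not_mem_emp k)⟩
    · intro n hn ih hs A hA hf
      obtain ⟨A1, h1, h2, h3⟩ := ih (fun z hz => hs z (mem_suc.2 (Or.inl hz))) A hA hf
      obtain ⟨A2, h4, h5, h6⟩ := h n A1 (hs n (mem_suc.2 (Or.inr rfl))) (Sub.trans h1 hA) h2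
      refine ⟨A2, Sub.trans h4 h1, h5, fun k hk => ?_⟩
      rcases mem_suc.1 hk with hk | rfl
      · exact hmono k A1 A2 (h3 k hk) h4
      · exact h6
  exact fun A hA hf => key K hK (Sub.refl K) A hA hf

end SW.SEP
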