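import Pool.Agent.H63.SEP.Stmts
import Pool.Agent.H93.CT.Stmts

/-!
Module HEX of project SEP: transitive sets closed under countable subsets.
-/

set_option linter.unusedVariables false
set_option synthInstance.maxSize 100000

namespace SW.SEP

open SW

section
variable {M : Type} [SetStr M] [ZF M]

theorem hex_id {z a : M} (h : Sub a z) : Img z a := by
  refine ⟨gr z (fun x => x), fun y hy => ⟨y, h y hy, ?_⟩⟩
  rw [app_gr (f := fun x : M => x) inferInstance (h y hy)]

theorem hex_cb {z a : M} (hz : Sub om z) (h : Cb a) : Img z a := by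
  obtain ⟨f, h1, h2⟩ := h
  have hF : Fn1 (fun n : M => the (fun y => E y a ∧ E (opair y n) f)) := inferInstance
  refine ⟨gr z (fun n => the (fun y => E y a ∧ E (opair y n) f)), fun y hy => ?_⟩
  obtain ⟨n, hn, hf⟩ := h1 y hy
  refine ⟨n, hz n hn, ?_⟩
  rw [app_gr hF (hz n hn)]
  exact (the_eq (p := fun y => E y a ∧ E (opair y n) f) ⟨hy, hf⟩
    fun y' ⟨hy', hf'⟩ => h2 y' y n hy' hy hn hf' hf).symm

end

/-- HEX -/
theorem sep_hex (bit : BITStmt) : HEXStmt := by
  intro M _ _ K
  obtain ⟨H, h1, h2⟩ := bit M (bun om (tc K)) ⟨emp, mem_bun.2 (Or.inl emp_mem_om)⟩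
  refine ⟨H, ⟨h1, fun a ha hc => h2 a ha (hex_cb (fun z hz => mem_bun.2 (Or.inl hz)) hc)⟩, ?_⟩
  have key : ∀ x, E x (tc K) → E x H := by
    intro x
    refine mem_induction (C := fun x => E x (tc K) → E x H) inferInstance ?_ x
    intro x ih hx
    have hs : Sub x (tc K) := Trans_tc K x hx
    exact h2 x (fun y hy => ih y hy (hs y hy)) (hex_id fun y hy => mem_bun.2 (Or.inr (hs y hy)))
  exact fun x hx => key x (sub_tc K x hx)

end SW.SEP
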