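import Pool.Agent.H63.SEP.Stmts2

/-!
Module TRQ of project SEP: translation of `QPhi`.
-/

set_option linter.unusedVariables false
set_option synthInstance.maxSize 100000

namespace SW.SEP

open SW

section
variable {N : Type} [SetStr N] [ZF N]

theorem trq_ind {z : N} : IsInductive z ↔ Ind z := by
  constructor
  · rintro ⟨⟨e, he, he'⟩, h⟩
    refine ⟨?_, fun y hy => ?_⟩
    · rwa [← eq_emp he]
    · obtain ⟨s, hs, hs'⟩ := h y hy
      have : s = suc y := SW.ext fun w => by rw [hs, mem_suc]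
      rwa [← this]
  · rintro ⟨h0, hs⟩
    exact ⟨⟨emp, not_mem_emp, h0⟩, fun y hy => ⟨suc y, fun t => mem_suc, hs y hy⟩⟩

theorem trq_om {w : N} : IsOmega w ↔ w = om := by
  have hom : Ind (om : N) := ⟨emp_mem_om, fun y hy => suc_mem_om hy⟩
  constructor
  · rintro ⟨h1, h2⟩
    refine SW.ext fun n => ⟨fun hn => h2 om (trq_ind.2 hom) n hn, fun hn => ?_⟩
    exact mem_om.1 hn w (trq_ind.1 h1)
  · rintro rfl
    exact ⟨trq_ind.2 hom, fun z hz n hn => mem_om.1 hn z (trq_ind.1 hz)⟩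

theorem trq_res {u v a : N} : IsRestriction u v a ↔ u = res v a := by
  unfold IsRestriction
  constructor
  · intro h
    refine SW.ext fun z => ?_
    rw [h, mem_res]
    simp only [isOP_iff]
  · rintro rfl z
    rw [mem_res]
    simp only [isOP_iff]

theorem trq_fun {v a b : N} : IsFunction v a b ↔ Fnc a b v := by
  unfold IsFunction Fnc
  simp only [isOP_iff, pairIn_iff]
  constructor
  · rintro ⟨h1, h2⟩
    refine ⟨h1, fun x hx => ?_, fun x y y' hy hy' => ?_⟩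
    · obtain ⟨y, hy, _⟩ := h2 x hx
      exact ⟨y, hy⟩
    · obtain ⟨x', y'', hx, _, he⟩ := h1 _ hy
      rw [opair_inj] at he
      obtain ⟨y0, _, h3⟩ := h2 x (he.1 ▸ hx)
      rw [h3 y hy, h3 y' hy']
  · rintro ⟨h1, h2, h3⟩
    exact ⟨h1, fun x hx => (h2 x hx).imp fun y hy => ⟨hy, fun y' hy' => h3 x y' y hy' hy⟩⟩

end

/-- TRQ -/
theorem sep_trq : TRQStmt := by
  intro N _ _ T x
  show (∃ o, IsOmega o ∧ PhiR o T x) ↔ Phi T x
  unfold PhiR Phi IsPoint
  simp only [trq_om, trq_fun, trq_res, isOP_iff]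
  constructor
  · rintro ⟨o, rfl, hx, y, hy, h⟩
    refine ⟨hx, y, hy, fun w hw => ?_⟩
    obtain ⟨v, hv, h2⟩ := h w hw
    refine ⟨v, hv, fun n hn => ?_⟩
    obtain ⟨a, b, c, d, q, r, s, rfl, rfl, rfl, rfl, rfl, rfl, rfl, h3⟩ := h2 n hn
    exact h3
  · rintro ⟨hx, y, hy, h⟩
    refine ⟨om, rfl, hx, y, hy, fun w hw => ?_⟩
    obtain ⟨v, hv, h2⟩ := h w hw
    exact ⟨v, hv, fun n hn => ⟨_, _, _, _, _, _, _, rfl, rfl, rfl, rfl, rfl, rfl, rfl, h2 n hn⟩⟩

end SW.SEP
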