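import Pool.Agent.H85.SEP.TRQ

/-!
Module UQX of project SEP: translations.
-/

set_option linter.unusedVariables false
set_option synthInstance.maxSize 100000

namespace SW.SEP

open SW

section
variable {N : Type} [SetStr N] [ZF N]

theorem uqx_two {z : N} : E z two ↔ z = emp ∨ z = one := by
  unfold two one
  rw [mem_upair]

theorem uqx_inr {g s a : N} : InRU g s a ↔ InR g s a := by
  unfold InRU InR gR
  constructor
  · rintro ⟨p, t, x, y, w, i0, i1, i2, hp, ht, h1, h2, h3, h4, h5, h6, h7⟩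
    have e0 : i0 = emp := eq_emp h5
    subst e0
    have e1 : i1 = one := SW.ext fun z => by rw [h6, one, mem_sing]
    subst e1
    have e2 : i2 = two := SW.ext fun z => by rw [h7, uqx_two]
    subst e2
    rw [isOP_iff] at h1 h2 h3 h4
    subst h4 h3 h2 h1
    exact ⟨p, hp, ht⟩
  · rintro ⟨p, hp, ht⟩
    exact ⟨p, _, _, _, _, emp, one, two, hp, ht, isOP_iff.2 rfl, isOP_iff.2 rfl, isOP_iff.2 rfl,
      isOP_iff.2 rfl, not_mem_emp, fun z => by rw [one, mem_sing], fun z => uqx_two⟩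

theorem uqx_cap {g u z j : N} : (∃ o, IsOmega o ∧ ∀ n, E n o →
    E j n → ∃ a b, IsRestriction a u n ∧ IsRestriction b z n ∧ InRU g a b) ↔
    ∀ n, E n om → E j n → InR g (res u n) (res z n) := by
  simp only [trq_om, trq_res, uqx_inr]
  constructor
  · rintro ⟨o, rfl, h⟩ n hn hj
    obtain ⟨a, b, rfl, rfl, h1⟩ := h n hn hj
    exact h1
  · intro h
    exact ⟨om, rfl, fun n hn hj => ⟨_, _, rfl, rfl, h n hn hj⟩⟩

end

/-- UQX -/
theorem sep_uqx : UQXStmt := by
  intro N _ _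
  refine ⟨fun g s a => uqx_inr, fun g u z j => uqx_cap, fun a u n => trq_res,
    fun g u Z => ?_, fun g u I => ?_⟩
  · show (∀ z, E z Z → ∃ o j, IsOmega o ∧ E j o ∧ ∀ n, E n o → E j n → ∃ a b,
      IsRestriction a u n ∧ IsRestriction b z n ∧ InRU g a b) ↔ Prd g Z u
    unfold Prd
    simp only [trq_om, trq_res, uqx_inr]
    refine forall_congr' fun z => forall_congr' fun hz => ?_
    constructor
    · rintro ⟨o, j, rfl, hj, h⟩
      refine ⟨j, hj, fun n hn hjn => ?_⟩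
      obtain ⟨a, b, rfl, rfl, h1⟩ := h n hn hjn
      exact h1
    · rintro ⟨j, hj, h⟩
      exact ⟨om, j, rfl, hj, fun n hn hjn => ⟨_, _, rfl, rfl, h n hn hjn⟩⟩
  · show (∀ e, E e I → ∃ z, ¬ (E z u ↔ ∃ p w t x i0, E p g ∧ E t p ∧ IsOP t e x ∧ IsOP x i0 w ∧
      (∀ z, ¬ E z i0) ∧ E z w)) ↔ _
    refine forall_congr' fun e => forall_congr' fun he => exists_congr fun z => ?_
    have key : (∃ p w t x i0, E p g ∧ E t p ∧ IsOP t e x ∧ IsOP x i0 w ∧
        (∀ z, ¬ E z i0) ∧ E z w) ↔ ∃ p w, E p g ∧ E (lV e w) p ∧ E z w := by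
      unfold lV
      constructor
      · rintro ⟨p, w, t, x, i0, hp, ht, h1, h2, h3, hz⟩
        have e0 : i0 = emp := eq_emp h3
        subst e0
        rw [isOP_iff] at h1 h2
        subst h2 h1
        exact ⟨p, w, hp, ht, hz⟩
      · rintro ⟨p, w, hp, ht, hz⟩
        exact ⟨p, w, _, _, emp, hp, ht, isOP_iff.2 rfl, isOP_iff.2 rfl, not_mem_emp, hz⟩
    rw [key]

end SW.SEP
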