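import Pool.Agent.H63.SEP.Stmts2

/-!
Modules FRX and TRU of project SEP: forcing of `Phi`.
-/

set_option linter.unusedVariables false
set_option synthInstance.maxSize 100000

namespace SW.SEP

open SW

section
variable {M : Type} [SetStr M] [ZF M]

theorem frx_le (J : M) : LeOf (PF J) (LO J) := by
  intro p q hp hq
  rw [pairIn_iff]
  unfold LO
  rw [mem_sep]
  constructor
  · rintro ⟨_, p', q', h1, h2⟩
    rw [opair_inj] at h1
    obtain ⟨rfl, rfl⟩ := h1
    exact h2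
  · intro h
    exact ⟨mem_prod.2 ⟨hp, hq⟩, p, q, rfl, h⟩

theorem frx_vec (J : M) (G : M → Prop) (T x : M) :
    (fun i => mk (PF J) G ((![vl T, vl x] : Fin 2 → M) i)) =
      ![mk (PF J) G (vl T), mk (PF J) G (vl x)] := by
  funext i
  fin_cases i <;> rfl

theorem frx_sat (trq : TRQStmt) {J T x : M} {G : M → Prop} [ZF (Ext (PF J) G)] :
    Sat fPhi (fun i => mk (PF J) G ((![vl T, vl x] : Fin 2 → M) i)) ↔
      Phi (mk (PF J) G (vl T)) (mk (PF J) G (vl x)) := by
  rw [frx_vec, ← fPhi_spec, trq]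

end

/-- FRX -/
theorem sep_frx (trq : TRQStmt) : FRXStmt := by
  intro M _ _ _ J p T x hp
  unfold SFm
  rw [show PS J = (PF J).P from rfl, forces_iff (frx_le J) fPhi p _ hp]
  constructor
  · intro h G hG hpG _
    rw [← frx_sat trq]
    exact ((frcF (PF J)).truth G hG fPhi _).2 ⟨p, hpG, h⟩
  · intro h
    refine (frcF (PF J)).dense fPhi hp fun q hq hqp => ?_
    obtain ⟨G, hG, hqG⟩ := (semF (PF J)).ex q hq
    have := zfX hG
    have h1 := h G hG (hG.up q p hqG hp hqp)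
    rw [← frx_sat trq] at h1
    obtain ⟨r0, hr0, hf⟩ := ((frcF (PF J)).truth G hG fPhi _).1 h1
    obtain ⟨r, hr, h2, h3⟩ := hG.dir q r0 hqG hr0
    exact ⟨r, hG.sub r hr, h2, (frcF (PF J)).mono fPhi (hG.sub r0 hr0) (hG.sub r hr) h3 hf⟩

/-- TRU -/
theorem sep_tru (trq : TRQStmt) : TRUStmt := by
  intro M _ _ _ J T x G hG _ h
  rw [← frx_sat trq] at h
  obtain ⟨p, hp, hf⟩ := ((frcF (PF J)).truth G hG fPhi _).1 h
  refine ⟨p, hp, ?_⟩
  unfold SFm
  rw [show PS J = (PF J).P from rfl, forces_iff (frx_le J) fPhi p _ (hG.sub p hp)]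
  exact hf

end SW.SEP
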